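import Pool.Agent.Helper46.CU.Stmts

set_option autoImplicit false

namespace Pool.Agent.Helper46.CU

open Finset

theorem sml_bound (A B a b y z m : ℕ) (Y : ℝ) (hA : 2 ≤ A) (ha : 2 ≤ a) (hAa : A < 2 * a)
    (hb : b ≤ B) (hyY : (y : ℝ) < Y) (h1 : a ^ 3 - 1 = m * y ^ 2) (h2 : b ^ 3 - 1 = m * z ^ 2) :
    (z : ℝ) ≤ 4 * Y * ((B : ℝ) / A) ^ (3 / 2 : ℝ) := by
  have hA0 : (0 : ℝ) < A := by exact_mod_cast (by omega : 0 < A)
  have hY0 : 0 < Y := lt_of_le_of_lt (Nat.cast_nonneg y) hyY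
  have hx0 : (0 : ℝ) ≤ (B : ℝ) / A := by positivity
  have hsq : (((B : ℝ) / A) ^ (3 / 2 : ℝ)) ^ 2 = ((B : ℝ) / A) ^ 3 := by
    rw [← Real.rpow_natCast, ← Real.rpow_mul hx0, ← Real.rpow_natCast]
    norm_num
  have ha8 : 8 ≤ a ^ 3 := by
    calc 8 = 2 ^ 3 := by norm_num
      _ ≤ a ^ 3 := Nat.pow_le_pow_left ha 3
  have e1 : ((a : ℝ) ^ 3 - 1) = m * y ^ 2 := by
    have : a ^ 3 = m * y ^ 2 + 1 := by omega
    have : (a : ℝ) ^ 3 = m * y ^ 2 + 1 := by exact_mod_cast this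
    linarith
  have e2 : (m : ℝ) * z ^ 2 ≤ (B : ℝ) ^ 3 := by
    have h3 : m * z ^ 2 ≤ B ^ 3 := by
      rw [← h2]
      exact (Nat.sub_le _ _).trans (Nat.pow_le_pow_left hb 3)
    exact_mod_cast h3
  have e3 : 7 / 64 * (A : ℝ) ^ 3 ≤ m * y ^ 2 := by
    rw [← e1]
    have h3 : (A : ℝ) < 2 * a := by exact_mod_cast hAa
    have h4 : (A : ℝ) ^ 3 ≤ (2 * (a : ℝ)) ^ 3 := pow_le_pow_left₀ hA0.le h3.le 3
    have h5 : (8 : ℝ) ≤ (a : ℝ) ^ 3 := by exact_mod_cast ha8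
    have h6 : (2 * (a : ℝ)) ^ 3 = 8 * (a : ℝ) ^ 3 := by ring
    rw [h6] at h4
    linarith
  have e4 : (m : ℝ) * y ^ 2 ≤ m * Y ^ 2 := by
    apply mul_le_mul_of_nonneg_left _ (Nat.cast_nonneg m)
    exact pow_le_pow_left₀ (Nat.cast_nonneg y) hyY.le 2
  have e5 : 7 / 64 * (A : ℝ) ^ 3 ≤ m * Y ^ 2 := e3.trans e4
  have hA3 : 0 < (A : ℝ) ^ 3 := by positivity
  have hm0 : (0 : ℝ) < m := by
    by_contra h
    have h7 : (m : ℝ) ≤ 0 := not_lt.1 h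
    have h8 : (m : ℝ) * Y ^ 2 ≤ 0 := mul_nonpos_of_nonpos_of_nonneg h7 (by positivity)
    linarith
  have key : (z : ℝ) ^ 2 ≤ (4 * Y * ((B : ℝ) / A) ^ (3 / 2 : ℝ)) ^ 2 := by
    rw [mul_pow, mul_pow, hsq, div_pow]
    have h9 : (A : ℝ) ^ 3 * (m * z ^ 2) ≤ 16 * (m * Y ^ 2) * B ^ 3 := by
      have h10 : (A : ℝ) ^ 3 ≤ 16 * (m * Y ^ 2) := by linarith
      exact mul_le_mul h10 e2 (by positivity) (by positivity)
    have h11 : (A : ℝ) ^ 3 * z ^ 2 ≤ 16 * Y ^ 2 * B ^ 3 := by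
      by_contra h
      have h12 := mul_lt_mul_of_pos_left (not_le.1 h) hm0
      nlinarith
    have h13 : (4 : ℝ) ^ 2 * Y ^ 2 * ((B : ℝ) ^ 3 / (A : ℝ) ^ 3) =
        (16 * Y ^ 2 * B ^ 3) / (A : ℝ) ^ 3 := by ring
    rw [h13, le_div_iff₀ hA3, mul_comm]
    exact h11
  have h0 : 0 ≤ 4 * Y * ((B : ℝ) / A) ^ (3 / 2 : ℝ) := by positivity
  exact (sq_le_sq₀ (Nat.cast_nonneg z) h0).1 key

theorem st_SML (h1 : ST_GAP) : ST_SML := by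
  classical
  intro A B hA hAB h4 Y hY
  set Z : ℝ := 4 * Y * ((B : ℝ) / A) ^ (3 / 2 : ℝ) with hZ
  have hZ0 : 0 ≤ Z := by positivity
  have hmem : ∀ p ∈ smlS A B Y, ∃ q : ℕ × ℕ, ∃ m : ℕ, 2 ≤ p.1 ∧ p.1 ≤ A ∧ 2 ≤ p.2 ∧ p.2 ≤ B ∧
      A < 2 * p.1 ∧ p.1 < p.2 ∧ 1 ≤ q.1 ∧ q.1 < q.2 ∧ (q.1 : ℝ) < Y ∧
      p.1 ^ 3 - 1 = m * q.1 ^ 2 ∧ p.2 ^ 3 - 1 = m * q.2 ^ 2 := by
    intro p hp
    unfold smlS at hp
    rw [mem_filter, mem_product, mem_Icc, mem_Icc] at hp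
    obtain ⟨⟨⟨a1, a2⟩, a3, a4⟩, a5, a6, y, z, m, a7, a8, a9, a10, a11⟩ := hp
    exact ⟨(y, z), m, a1, a2, a3, a4, a5, a6, a7, a8, a9, a10, a11⟩
  choose! f m hf using hmem
  have hcard : (smlS A B Y).card ≤ (Icc 1 ⌊Y⌋₊ ×ˢ Icc 1 ⌊Z⌋₊).card := by
    apply card_le_card_of_injOn f
    · intro p hp
      obtain ⟨a1, a2, a3, a4, a5, a6, a7, a8, a9, a10, a11⟩ := hf p hp
      rw [mem_coe, mem_product, mem_Icc, mem_Icc]
      refine ⟨⟨a7, Nat.le_floor a9.le⟩, by omega, Nat.le_floor ?_⟩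
      exact sml_bound A B p.1 p.2 (f p).1 (f p).2 (m p) Y hA a1 a5 a4 a9 a10 a11
    · intro p hp p' hp' hpp
      obtain ⟨a1, a2, a3, a4, a5, a6, a7, a8, a9, a10, a11⟩ := hf p hp
      obtain ⟨b1, b2, b3, b4, b5, b6, b7, b8, b9, b10, b11⟩ := hf p' hp'
      rw [← hpp] at b7 b8 b9 b10 b11
      have c1 : (f p).2 ^ 2 * (p.1 ^ 3 - 1) = (f p).1 ^ 2 * (p.2 ^ 3 - 1) := by
        rw [a10, a11]; ring
      have c2 : (f p).2 ^ 2 * (p'.1 ^ 3 - 1) = (f p).1 ^ 2 * (p'.2 ^ 3 - 1) := by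
        rw [b10, b11]; ring
      rcases lt_trichotomy p.2 p'.2 with h | h | h
      · exfalso
        have := h1 _ _ _ _ _ _ a7 a8 a1 b1 h c1 c2
        nlinarith
      · have hz : 0 < (f p).2 ^ 2 := by
          have : 0 < (f p).2 := by omega
          positivity
        have h3 : m p = m p' := by
          rw [h, b11] at a11
          exact (Nat.eq_of_mul_eq_mul_right hz a11).symm
        rw [← h3, ← a10] at b10
        have h5 : p.1 ^ 3 = p'.1 ^ 3 := by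
          have h6 : 1 ≤ p.1 ^ 3 := Nat.one_le_pow _ _ (by omega)
          have h7 : 1 ≤ p'.1 ^ 3 := Nat.one_le_pow _ _ (by omega)
          omega
        exact Prod.ext (Nat.pow_left_injective (by norm_num : 3 ≠ 0) h5) h
      · exfalso
        have := h1 _ _ _ _ _ _ a7 a8 b1 a1 h c2 c1
        nlinarith
  have h5 : ((smlS A B Y).card : ℝ) ≤ (⌊Y⌋₊ : ℝ) * (⌊Z⌋₊ : ℝ) := by
    rw [card_product, Nat.card_Icc, Nat.card_Icc, Nat.add_sub_cancel, Nat.add_sub_cancel] at hcard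
    exact_mod_cast hcard
  have h6 : (⌊Y⌋₊ : ℝ) * (⌊Z⌋₊ : ℝ) ≤ Y * Z :=
    mul_le_mul (Nat.floor_le (by linarith)) (Nat.floor_le hZ0) (Nat.cast_nonneg _) (by linarith)
  refine h5.trans (h6.trans (le_of_eq ?_))
  rw [hZ]
  ring

end Pool.Agent.Helper46.CU
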